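import Pool.Agent.J4H48.HK.Stm

/-!
Random constants: the Borel-Cantelli version of `S_MAIN`.
-/

set_option autoImplicit false

open Polynomial NumberField MeasureTheory Filter

namespace Pool.Agent.J4H48.HK

/-- the noise `ξ` takes values in `[a, a + m)`, each value with probability at most `κ / m` -/
def Noise {Ω : Type*} [MeasurableSpace Ω] (μ : Measure Ω) (ξ : Ω → ℤ) (a : ℤ) (m : ℕ) (κ : ℝ) :
    Prop :=
  (∀ᵐ ω ∂μ, a ≤ ξ ω ∧ ξ ω < a + m) ∧ ∀ k : ℤ, μ {ω | ξ ω = k} ≤ ENNReal.ofReal (κ / m)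

theorem prob {Ω : Type*} [MeasurableSpace Ω] (μ : Measure Ω) (P : ℤ → Prop) (ξ : Ω → ℤ) (a : ℤ)
    (m : ℕ) (κ N : ℝ) (hκ : 0 ≤ κ) (hξ : Noise μ ξ a m κ)
    (hN : (({k : ℤ | a ≤ k ∧ k < a + m ∧ P k}.ncard : ℕ) : ℝ) ≤ N) :
    μ {ω | P (ξ ω)} ≤ ENNReal.ofReal (N * (κ / m)) := by
  classical
  have hfin : {k : ℤ | a ≤ k ∧ k < a + m ∧ P k}.Finite :=
    (Set.finite_Ico a (a + m)).subset (fun _ ht => ⟨ht.1, ht.2.1⟩)
  rw [Set.ncard_eq_toFinset_card _ hfin] at hN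
  set V := hfin.toFinset with hV
  have h1 : μ {ω | P (ξ ω)} ≤ μ (⋃ k ∈ V, {ω | ξ ω = k}) := by
    apply measure_mono_ae
    filter_upwards [hξ.1] with ω hω hL
    have hL' : P (ξ ω) := hL
    have : ξ ω ∈ V := by
      rw [hV, Set.Finite.mem_toFinset]
      exact ⟨hω.1, hω.2, hL'⟩
    show ω ∈ ⋃ k ∈ V, {ω | ξ ω = k}
    simp only [Set.mem_iUnion, Set.mem_ofPred_eq, exists_prop]
    exact ⟨ξ ω, this, rfl⟩
  refine h1.trans ((measure_biUnion_finset_le _ _).trans ?_)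
  calc ∑ k ∈ V, μ {ω | ξ ω = k} ≤ ∑ _k ∈ V, ENNReal.ofReal (κ / m) :=
        Finset.sum_le_sum fun k _ => hξ.2 k
    _ = ENNReal.ofReal (V.card * (κ / m)) := by
        rw [Finset.sum_const, nsmul_eq_mul, ENNReal.ofReal_mul (Nat.cast_nonneg _),
          ENNReal.ofReal_natCast]
    _ ≤ _ := by
        apply ENNReal.ofReal_le_ofReal
        exact mul_le_mul_of_nonneg_right hN (by positivity)

theorem countable_poly (K : Type) [Field K] [NumberField K] : Countable (𝓞 K)[X] ∧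
    Countable (𝓞 K) := by
  have h1 : Countable K :=
    (Module.finBasis ℚ K).equivFun.injective.countable
  have h2 : Countable (𝓞 K) :=
    (FaithfulSMul.algebraMap_injective (𝓞 K) K).countable
  refine ⟨?_, h2⟩
  rw [← Cardinal.mk_le_aleph0_iff] at h2 ⊢
  exact (Polynomial.cardinalMk_le_max).trans (max_le h2 le_rfl)

theorem t_AS (hmain : S_MAIN) (K : Type) [Field K] [NumberField K] {Ω : Type*}
    [MeasurableSpace Ω] (μ : Measure Ω) (ξ : ℕ → Ω → ℤ) (a : ℕ → ℤ) (m : ℕ → ℕ) (κ : ℝ) (d₀ : ℕ)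
    (hm : ∀ n, 1 ≤ m n) (hκ : 0 ≤ κ) (hξ : ∀ n, Noise μ (ξ n) (a n) (m n) κ)
    (hs : Summable fun n => (m n : ℝ) ^ (-(1 / (d₀ : ℝ)))) :
    ∀ᵐ ω ∂μ, ∀ (F : (𝓞 K)[X]) (b e : 𝓞 K), 2 ≤ F.natDegree → F.natDegree ≤ d₀ → b ≠ 0 →
      ∀ᶠ n in atTop, ¬ HasPer K F b e (ξ n ω) (F.natDegree - 1) := by
  obtain ⟨hc1, hc2⟩ := countable_poly K
  rw [ae_all_iff]
  intro F
  rw [ae_all_iff]
  intro b
  rw [ae_all_iff]
  intro e
  by_cases hF : 2 ≤ F.natDegree ∧ F.natDegree ≤ d₀ ∧ b ≠ 0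
  · obtain ⟨hF1, hF2, hb⟩ := hF
    obtain ⟨C, hC, hcount⟩ := hmain K F b e (F.natDegree - 1) hF1 hb (by omega) (by omega)
    have hd0 : (0 : ℝ) < F.natDegree := by exact_mod_cast (by omega : 0 < F.natDegree)
    have key : ∀ᵐ ω ∂μ, ∀ᶠ n in atTop,
        ω ∉ {ω | HasPer K F b e (ξ n ω) (F.natDegree - 1)} := by
      apply ae_eventually_notMem
      refine ne_top_of_le_ne_top ?_ (ENNReal.tsum_le_tsum fun n =>
        prob μ (fun k => HasPer K F b e k (F.natDegree - 1)) (ξ n) (a n) (m n) κ _ hκ (hξ n)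
          (hcount (a n) (m n) (hm n)))
      have hle : ∀ n, ENNReal.ofReal (C * (m n : ℝ) ^
          (((F.natDegree - 1 : ℕ) : ℝ) / F.natDegree) * (κ / m n)) ≤
          ENNReal.ofReal (C * κ * (m n : ℝ) ^ (-(1 / (d₀ : ℝ)))) := by
        intro n
        apply ENNReal.ofReal_le_ofReal
        have hm1 : (1 : ℝ) ≤ m n := by exact_mod_cast hm n
        have hm0 : (0 : ℝ) < m n := by linarith
        have e1 : (m n : ℝ) ^ (((F.natDegree - 1 : ℕ) : ℝ) / F.natDegree) / m n =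
            (m n : ℝ) ^ (-(1 / (F.natDegree : ℝ))) := by
          have e2 : (m n : ℝ) ^ (((F.natDegree - 1 : ℕ) : ℝ) / F.natDegree) / m n =
              (m n : ℝ) ^ (((F.natDegree - 1 : ℕ) : ℝ) / F.natDegree - 1) := by
            rw [Real.rpow_sub hm0, Real.rpow_one]
          rw [e2]
          congr 1
          rw [Nat.cast_sub (by omega), Nat.cast_one]
          field_simp
          ring
        have h2 : (m n : ℝ) ^ (-(1 / (F.natDegree : ℝ))) ≤ (m n : ℝ) ^ (-(1 / (d₀ : ℝ))) := by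
          apply Real.rpow_le_rpow_of_exponent_le hm1
          have h3 : 1 / (d₀ : ℝ) ≤ 1 / (F.natDegree : ℝ) :=
            one_div_le_one_div_of_le hd0 (by exact_mod_cast hF2)
          linarith
        calc C * (m n : ℝ) ^ (((F.natDegree - 1 : ℕ) : ℝ) / F.natDegree) * (κ / m n)
            = C * κ * ((m n : ℝ) ^ (((F.natDegree - 1 : ℕ) : ℝ) / F.natDegree) / m n) := by ring
          _ = C * κ * (m n : ℝ) ^ (-(1 / (F.natDegree : ℝ))) := by rw [e1]
          _ ≤ C * κ * (m n : ℝ) ^ (-(1 / (d₀ : ℝ))) :=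
              mul_le_mul_of_nonneg_left h2 (by positivity)
      refine ne_top_of_le_ne_top ?_ (ENNReal.tsum_le_tsum hle)
      rw [← ENNReal.ofReal_tsum_of_nonneg _ (hs.mul_left _)]
      · exact ENNReal.ofReal_ne_top
      · intro n
        positivity
    filter_upwards [key] with ω hω _ _ _
    exact hω
  · exact Eventually.of_forall fun ω h1 h2 h3 => absurd ⟨h1, h2, h3⟩ hF

end Pool.Agent.J4H48.HK
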