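import Pool.Agent.J4H48.HK.Stm

/-!
From the data to the maps: `S_RED → S_CNT → S_LAT → S_MAIN`.
-/

set_option autoImplicit false

open Finset Polynomial NumberField

namespace Pool.Agent.J4H48.HK

theorem t_MAIN (hred : S_RED) (hcnt : S_CNT) (hlat : S_LAT) : S_MAIN := by
  classical
  intro K _ _ F b e D hd hb hD hDd
  obtain ⟨R0, c, r, hR0, hc, hr, G, A, α, β, hG, hGd, hA, hred⟩ := hred K F b e D hd hb
  have hex : ∀ n : ℕ, ∃ R C : ℝ, 1 ≤ R ∧ 1 ≤ C ∧ (1 ≤ n → n ≤ D →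
      ∀ (Γ : ℤ) (M : ℕ) (V : Finset ℤ), 1 ≤ M →
        (∀ γ ∈ V, Γ ≤ γ ∧ γ < Γ + M ∧ R ≤ |(γ : ℝ)| ∧
          ∃ W, Good (lat K) G A α β F.natDegree n c r γ W) →
        (V.card : ℝ) ≤ C * (M : ℝ) ^ ((D : ℝ) / F.natDegree)) := by
    intro n
    by_cases h : 1 ≤ n ∧ n ≤ D
    · obtain ⟨R, C, h1, h2, h3⟩ := hcnt (K →+* ℂ) (lat K) (hlat K) G A α β F.natDegree n D c r
        h.1 h.2 hDd hd hG hGd hA hc hr
      exact ⟨R, C, h1, h2, fun _ _ => h3⟩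
    · exact ⟨1, 1, le_rfl, le_rfl, fun h1 h2 => absurd ⟨h1, h2⟩ h⟩
  choose R C hR hC hcount using hex
  obtain ⟨T, hT⟩ : ∃ T : ℝ, T = R0 + ∑ n ∈ Icc 1 D, R n := ⟨_, rfl⟩
  have hRT : ∀ n ∈ Icc 1 D, R n ≤ T := by
    intro n hn
    rw [hT]
    have h1 := Finset.single_le_sum (f := R) (fun i _ => by linarith [hR i]) hn
    linarith
  have hR0T : R0 ≤ T := by
    rw [hT]
    have h1 : 0 ≤ ∑ n ∈ Icc 1 D, R n := Finset.sum_nonneg fun i _ => by linarith [hR i]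
    linarith
  obtain ⟨t, ht⟩ : ∃ t : ℕ, T < t := exists_nat_gt T
  have hCs : 0 ≤ ∑ n ∈ Icc 1 D, C n := Finset.sum_nonneg fun i _ => by linarith [hC i]
  obtain ⟨θ, hθ⟩ : ∃ θ : ℝ, θ = (D : ℝ) / F.natDegree := ⟨_, rfl⟩
  rw [← hθ] at hcount ⊢
  have hd0 : (0 : ℝ) < F.natDegree := by exact_mod_cast (by omega : 0 < F.natDegree)
  have hθ0 : 0 ≤ θ := by rw [hθ]; positivity
  refine ⟨(2 * t + 1) + ∑ n ∈ Icc 1 D, C n, by
    have h2 : (0 : ℝ) ≤ t := Nat.cast_nonneg _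
    linarith, ?_⟩
  intro a m hm
  have hm1 : (1 : ℝ) ≤ m := by exact_mod_cast hm
  have hmθ : (1 : ℝ) ≤ (m : ℝ) ^ θ := Real.one_le_rpow hm1 hθ0
  have hfin : {k : ℤ | a ≤ k ∧ k < a + m ∧ HasPer K F b e k D}.Finite :=
    (Set.finite_Ico a (a + m)).subset (fun _ ht => ⟨ht.1, ht.2.1⟩)
  rw [Set.ncard_eq_toFinset_card _ hfin]
  obtain ⟨U, hU⟩ : ∃ U, U = hfin.toFinset := ⟨_, rfl⟩
  rw [← hU]
  have hUmem : ∀ k ∈ U, a ≤ k ∧ k < a + m ∧ HasPer K F b e k D := by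
    intro k hk
    rw [hU, Set.Finite.mem_toFinset] at hk
    exact hk
  let P : ℕ → ℤ → Prop := fun n k => T ≤ |(k : ℝ)| ∧
    ∃ W, Good (lat K) G A α β F.natDegree n c r k W
  have hcov : U ⊆ (Icc (-(t : ℤ)) t) ∪ (Icc 1 D).biUnion fun n => U.filter (P n) := by
    intro k hk
    rw [mem_union]
    by_cases h : T ≤ |(k : ℝ)|
    · right
      obtain ⟨n, h1, h2, h3⟩ := hred k (hR0T.trans h) (hUmem k hk).2.2
      rw [mem_biUnion]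
      exact ⟨n, mem_Icc.2 ⟨h1, h2⟩, mem_filter.2 ⟨hk, h, h3⟩⟩
    · left
      push Not at h
      have h1 : |(k : ℝ)| < t := h.trans ht
      have h2 : |k| < (t : ℤ) := by exact_mod_cast h1
      rw [mem_Icc]
      exact abs_le.1 h2.le
  have hone : ∀ n ∈ Icc 1 D, ((U.filter (P n)).card : ℝ) ≤ C n * (m : ℝ) ^ θ := by
    intro n hn
    apply hcount n (mem_Icc.1 hn).1 (mem_Icc.1 hn).2 a m (U.filter (P n)) hm
    intro k hk
    rw [mem_filter] at hk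
    exact ⟨(hUmem k hk.1).1, (hUmem k hk.1).2.1, (hRT n hn).trans hk.2.1, hk.2.2⟩
  have hIcc : (Icc (-(t : ℤ)) t).card = 2 * t + 1 := by
    rw [Int.card_Icc]
    omega
  have h1 : (U.card : ℝ) ≤ (2 * t + 1) + ∑ n ∈ Icc 1 D, ((U.filter (P n)).card : ℝ) := by
    have h2 : U.card ≤ (2 * t + 1) + ∑ n ∈ Icc 1 D, (U.filter (P n)).card := by
      refine (card_le_card hcov).trans ((card_union_le _ _).trans ?_)
      rw [hIcc]
      exact Nat.add_le_add_left card_biUnion_le _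
    exact_mod_cast h2
  calc (U.card : ℝ) ≤ (2 * t + 1) + ∑ n ∈ Icc 1 D, ((U.filter (P n)).card : ℝ) := h1
    _ ≤ (2 * t + 1) + ∑ n ∈ Icc 1 D, C n * (m : ℝ) ^ θ :=
        add_le_add le_rfl (Finset.sum_le_sum hone)
    _ = (2 * t + 1) + (∑ n ∈ Icc 1 D, C n) * (m : ℝ) ^ θ := by rw [Finset.sum_mul]
    _ ≤ (2 * t + 1) * (m : ℝ) ^ θ + (∑ n ∈ Icc 1 D, C n) * (m : ℝ) ^ θ := by
        have h2 : (0 : ℝ) ≤ 2 * t + 1 := by positivity
        have h3 : (2 * (t : ℝ) + 1) ≤ (2 * t + 1) * (m : ℝ) ^ θ := le_mul_of_one_le_right h2 hmθ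
        linarith
    _ = _ := by ring

end Pool.Agent.J4H48.HK
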