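import Mathlib

/-!
Project HK: periodic points of degree `< d` over every number field (statements).
The number field version of project HN (`Pool.Agent.J4H48.HN.Stm`).
-/

set_option autoImplicit false

open Polynomial NumberField

namespace Pool.Agent.J4H48.HK

/-- as `HN.S_PAIR`, with the annulus `1 / r ≤ ‖u‖ ≤ r` -/
def S_PAIR : Prop := ∀ (G : ℂ[X]) (d : ℕ), 2 ≤ d → G.Monic → G.natDegree = d →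
  ∀ r : ℝ, 1 ≤ r → ∃ ε R K : ℝ, 0 < ε ∧ 1 ≤ R ∧ 1 ≤ K ∧
  ∀ (g g' : ℝ) (u u' : ℂ), R ≤ g → R ≤ g' →
    1 / r ≤ ‖u‖ → ‖u‖ ≤ r → 1 / r ≤ ‖u'‖ → ‖u'‖ ≤ r → ‖u - u'‖ ≤ ε →
    ‖(g : ℂ) * u - (g' : ℂ) * u'‖ * (max g g') ^ (d - 1) ≤
      K * ‖G.eval ((g : ℂ) * u) - G.eval ((g' : ℂ) * u')‖

/-- as `HN.S_SIZE`, with a factor `μ` at `γ` -/
def S_SIZE : Prop := ∀ (G : ℂ[X]) (d : ℕ), 2 ≤ d → G.Monic → G.natDegree = d →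
  ∀ μ : ℂ, μ ≠ 0 → ∀ A : ℝ, 0 ≤ A → ∃ R r : ℝ, 1 ≤ R ∧ 1 ≤ r ∧
  ∀ γ : ℝ, R ≤ |γ| → ∀ W : Finset ℂ,
    (∀ w ∈ W, ∃ u ∈ W, ∃ v ∈ W, ‖G.eval w + μ * (γ : ℂ)‖ ≤ A * max ‖u‖ ‖v‖) →
    ∀ w ∈ W, 1 / r * |γ| ^ (1 / (d : ℝ)) ≤ ‖w‖ ∧ ‖w‖ ≤ r * |γ| ^ (1 / (d : ℝ)) ∧
      ‖G.eval w + μ * (γ : ℂ)‖ ≤ A * r * |γ| ^ (1 / (d : ℝ))

/-- as `HN.S_INT`, with integral coefficients in the field -/
def S_INT : Prop := ∀ (L : Type) [Field L] [NumberField L] (G : L[X]), G.Monic →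
  2 ≤ G.natDegree → (∀ i, IsIntegral ℤ (G.coeff i)) → ∀ α β γ : L, IsIntegral ℤ α →
    IsIntegral ℤ β → IsIntegral ℤ γ → ∀ W : Finset L,
    (∀ w ∈ W, ∃ u ∈ W, ∃ v ∈ W, G.eval w + γ = α * u + β * v) → ∀ w ∈ W, IsIntegral ℤ w

/-- relative version of `HN.S_NORM`: the embeddings of `L` above each embedding of `K`
(`Algebra.norm_eq_prod_embeddings` with `τ.toAlgebra`, `Algebra.isIntegral_norm`) -/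
def S_NORM : Prop := ∀ (K L : Type) [Field K] [NumberField K] [Field L] [Algebra K L]
  [FiniteDimensional K L], ∃ σ : (K →+* ℂ) → Fin (Module.finrank K L) → (L →+* ℂ),
    (∀ τ j (x : K), σ τ j (algebraMap K L x) = τ x) ∧
    ∀ x : L, IsIntegral ℤ x → ∀ t : ℤ, ∃ N : 𝓞 K, ∀ τ : K →+* ℂ,
      ∏ j, ((t : ℂ) - σ τ j x) = τ (algebraMap (𝓞 K) K N)

/-- the data of three consecutive members of a cycle, in all embeddings, sorted by the embedding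
`τ` of the base field -/
structure Good {T : Type} (Λ : AddSubgroup (T → ℂ)) (G : T → ℂ[X]) (A α β : T → ℂ) (d n : ℕ)
    (c r : ℝ) (γ : ℤ) (W : T → Fin n → Fin 3 → ℂ) : Prop where
  lo : ∀ τ j i, 1 / r * |(γ : ℝ)| ^ (1 / (d : ℝ)) ≤ ‖W τ j i‖
  hi : ∀ τ j i, ‖W τ j i‖ ≤ r * |(γ : ℝ)| ^ (1 / (d : ℝ))
  near : ∀ τ j i, ‖(G τ).eval (W τ j i) + A τ * (γ : ℂ)‖ ≤ c * |(γ : ℝ)| ^ (1 / (d : ℝ))
  int : ∀ (t : ℤ) (i : Fin 3), (fun τ => ∏ j, ((t : ℂ) - W τ j i)) ∈ Λ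
  rel : ∀ τ j, (G τ).eval (W τ j 1) + A τ * (γ : ℂ) = α τ * W τ j 2 + β τ * W τ j 0

/-- as `HN.S_CLOSE`, for each embedding -/
def S_CLOSE : Prop := ∀ (T : Type) [Fintype T] (Λ : AddSubgroup (T → ℂ)) (G : T → ℂ[X])
  (A α β : T → ℂ) (d n D : ℕ) (c c' r : ℝ), 1 ≤ n → n ≤ D → D < d → 2 ≤ d →
  (∀ τ, (G τ).Monic) → (∀ τ, (G τ).natDegree = d) → 0 ≤ c → 0 ≤ c' → 1 ≤ r →
  ∃ ε R K : ℝ, 0 < ε ∧ 1 ≤ R ∧ 1 ≤ K ∧ ∀ (γ γ' : ℤ) (W W' : T → Fin n → Fin 3 → ℂ),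
    Good Λ G A α β d n c r γ W → Good Λ G A α β d n c r γ' W' →
    R ≤ |(γ : ℝ)| → R ≤ |(γ' : ℝ)| →
    |(γ : ℝ) - γ'| ≤ c' * (max |(γ : ℝ)| |(γ' : ℝ)|) ^ (1 - (D : ℝ) / d) →
    (∀ τ j i, ‖W τ j i / ((|(γ : ℝ)| ^ (1 / (d : ℝ)) : ℝ) : ℂ) -
      W' τ j i / ((|(γ' : ℝ)| ^ (1 / (d : ℝ)) : ℝ) : ℂ)‖ ≤ ε) →
    ∀ (τ : T) (t : Fin n) (i : Fin 3),
      ‖∏ j, (((t : ℕ) : ℂ) - W τ j i) - ∏ j, (((t : ℕ) : ℂ) - W' τ j i)‖ ≤ K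

/-- as `HN.S_CELL` -/
def S_CELL : Prop := ∀ θ : ℝ, 0 < θ → θ < 1 → ∃ K : ℝ, 1 ≤ K ∧ ∀ s s' : ℝ, 0 ≤ s → s ≤ s' →
  ⌊s ^ θ⌋ = ⌊s' ^ θ⌋ → s' - s ≤ K * s' ^ (1 - θ)

/-- as `HN.S_CNT`, with a discrete group `Λ` in the place of the integers -/
def S_CNT : Prop := ∀ (T : Type) [Fintype T] [Nonempty T] (Λ : AddSubgroup (T → ℂ)),
  (∀ R : ℝ, {x : T → ℂ | x ∈ Λ ∧ ∀ τ, ‖x τ‖ ≤ R}.Finite) →
  ∀ (G : T → ℂ[X]) (A α β : T → ℂ) (d n D : ℕ) (c r : ℝ), 1 ≤ n → n ≤ D → D < d →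
  2 ≤ d → (∀ τ, (G τ).Monic) → (∀ τ, (G τ).natDegree = d) → (∀ τ, A τ ≠ 0) → 0 ≤ c →
  1 ≤ r → ∃ R K : ℝ, 1 ≤ R ∧ 1 ≤ K ∧ ∀ (Γ : ℤ) (M : ℕ) (V : Finset ℤ), 1 ≤ M →
    (∀ γ ∈ V, Γ ≤ γ ∧ γ < Γ + M ∧ R ≤ |(γ : ℝ)| ∧ ∃ W, Good Λ G A α β d n c r γ W) →
    (V.card : ℝ) ≤ K * (M : ℝ) ^ ((D : ℝ) / d)

/-- the vectors of the embeddings of the integers of `K` -/
def lat (K : Type) [Field K] : AddSubgroup ((K →+* ℂ) → ℂ) where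
  carrier := {v | ∃ x : 𝓞 K, ∀ τ : K →+* ℂ, v τ = τ (algebraMap (𝓞 K) K x)}
  zero_mem' := ⟨0, fun τ => by simp⟩
  add_mem' := by
    rintro v w ⟨x, hx⟩ ⟨y, hy⟩
    exact ⟨x + y, fun τ => by simp [hx τ, hy τ]⟩
  neg_mem' := by
    rintro v ⟨x, hx⟩
    exact ⟨-x, fun τ => by simp [hx τ]⟩

/-- finiteness (`NumberField.Embeddings.finite_of_norm_le`) -/
def S_LAT : Prop := ∀ (K : Type) [Field K] [NumberField K] (R : ℝ),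
  {x : (K →+* ℂ) → ℂ | x ∈ lat K ∧ ∀ τ, ‖x τ‖ ≤ R}.Finite

/-- the Hénon map `(x, y) ↦ (y, (F(y) + c - e x) / b)` over the algebraic closure of `K` -/
noncomputable def henon (K : Type) [Field K] (F : (𝓞 K)[X]) (b e : 𝓞 K) (c : ℤ)
    (P : AlgebraicClosure K × AlgebraicClosure K) : AlgebraicClosure K × AlgebraicClosure K :=
  (P.2, (aeval P.2 (F.map (algebraMap (𝓞 K) K)) + (c : AlgebraicClosure K) -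
    algebraMap K (AlgebraicClosure K) (algebraMap (𝓞 K) K e) * P.1) /
      algebraMap K (AlgebraicClosure K) (algebraMap (𝓞 K) K b))

/-- it has a periodic point `P` with `[K(P) : K] ≤ B` -/
def HasPer (K : Type) [Field K] (F : (𝓞 K)[X]) (b e : 𝓞 K) (c : ℤ) (B : ℕ) : Prop :=
  ∃ L : IntermediateField K (AlgebraicClosure K), FiniteDimensional K L ∧
    Module.finrank K L ≤ B ∧ ∃ P : AlgebraicClosure K × AlgebraicClosure K,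
      P.1 ∈ L ∧ P.2 ∈ L ∧ ∃ n : ℕ, 1 ≤ n ∧ (henon K F b e c)^[n] P = P

/-- from the maps to the data (as `HN.S_RED`; `A τ = τ(a) ^ (d - 1)`, `G τ` the image of
`a ^ (d - 1) F(z / a)`) -/
def S_RED : Prop := ∀ (K : Type) [Field K] [NumberField K] (F : (𝓞 K)[X]) (b e : 𝓞 K) (B : ℕ),
  2 ≤ F.natDegree → b ≠ 0 → ∃ R c r : ℝ, 1 ≤ R ∧ 0 ≤ c ∧ 1 ≤ r ∧
  ∃ (G : (K →+* ℂ) → ℂ[X]) (A α β : (K →+* ℂ) → ℂ), (∀ τ, (G τ).Monic) ∧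
    (∀ τ, (G τ).natDegree = F.natDegree) ∧ (∀ τ, A τ ≠ 0) ∧
    ∀ k : ℤ, R ≤ |(k : ℝ)| → HasPer K F b e k B →
      ∃ n : ℕ, 1 ≤ n ∧ n ≤ B ∧ ∃ W, Good (lat K) G A α β F.natDegree n c r k W

/-- the count -/
def S_MAIN : Prop := ∀ (K : Type) [Field K] [NumberField K] (F : (𝓞 K)[X]) (b e : 𝓞 K) (B : ℕ),
  2 ≤ F.natDegree → b ≠ 0 → 1 ≤ B → B < F.natDegree → ∃ C : ℝ, 1 ≤ C ∧
    ∀ (a : ℤ) (m : ℕ), 1 ≤ m →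
      (({k : ℤ | a ≤ k ∧ k < a + m ∧ HasPer K F b e k B}.ncard : ℕ) : ℝ) ≤
        C * (m : ℝ) ^ ((B : ℝ) / F.natDegree)

/-- the exponent `B / d` is best possible over every number field (as `HN.S_SHARP`) -/
def S_SHARP : Prop := ∀ (K : Type) [Field K] [NumberField K] (B q : ℕ), 1 ≤ B → 1 ≤ q →
  2 ≤ B * q → ∀ k : ℕ, k ≤ {c : ℤ | 1 - (k : ℤ) ^ q ≤ c ∧ c < 1 - (k : ℤ) ^ q + (k ^ q : ℕ) ∧
    HasPer K (X ^ (B * q)) 1 (-1) c B}.ncard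

/-- the range `B < d` is best possible: fixed points, `F(y) + c = (b + e) y` -/
def S_FULL : Prop := ∀ (K : Type) [Field K] [NumberField K] (F : (𝓞 K)[X]) (b e : 𝓞 K) (c : ℤ),
  2 ≤ F.natDegree → b ≠ 0 → HasPer K F b e c F.natDegree

end Pool.Agent.J4H48.HK
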